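import Pool.Agent.V5helper71.QB.Stm2

/-!
# Project QB, job FS: superadditivity of `x / (π - x)`
-/

set_option autoImplicit false

namespace Pool.Agent.V5helper34.QB

open Finset Real

theorem two {x y : ℝ} (hx : 0 < x) (hy : 0 < y) (h : x + y < π) :
    x / (π - x) + y / (π - y) < (x + y) / (π - (x + y)) := by
  have h1 : 0 < π - (x + y) := by linarith
  have h2 : x / (π - x) < x / (π - (x + y)) := by
    apply div_lt_div_of_pos_left hx h1
    linarith
  have h3 : y / (π - y) < y / (π - (x + y)) := by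
    apply div_lt_div_of_pos_left hy h1
    linarith
  rw [add_div]
  linarith

theorem weak {ι : Type} [DecidableEq ι] (w : ι → ℝ) (s : Finset ι) :
    (∀ k ∈ s, 0 < w k) → ∑ k ∈ s, w k < π →
    ∑ k ∈ s, w k / (π - w k) ≤ (∑ k ∈ s, w k) / (π - ∑ k ∈ s, w k) := by
  induction s using Finset.induction_on with
  | empty => intro _ _; simp
  | insert a s ha ih =>
    intro hp hs
    rw [sum_insert ha] at hs ⊢
    rw [sum_insert ha]
    have hpa := hp a (mem_insert_self _ _)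
    have hps : ∀ k ∈ s, 0 < w k := fun k hk => hp k (mem_insert_of_mem hk)
    have h1 := ih hps (by linarith)
    rcases s.eq_empty_or_nonempty with rfl | hne
    · simp
    · have h2 : 0 < ∑ k ∈ s, w k := sum_pos hps hne
      have h3 := two hpa h2 hs
      linarith

theorem strict {ι : Type} [DecidableEq ι] (w : ι → ℝ) (s : Finset ι) (a b : ι) (ha : a ∈ s)
    (hb : b ∈ s) (hab : a ≠ b) (hp : ∀ k ∈ s, 0 < w k) (hs : ∑ k ∈ s, w k < π) :
    ∑ k ∈ s, w k / (π - w k) < (∑ k ∈ s, w k) / (π - ∑ k ∈ s, w k) := by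
  have e1 : ∑ k ∈ s, w k = w a + ∑ k ∈ s.erase a, w k := (add_sum_erase s w ha).symm
  have e2 : ∑ k ∈ s, w k / (π - w k) = w a / (π - w a) + ∑ k ∈ s.erase a, w k / (π - w k) :=
    (add_sum_erase s (fun k => w k / (π - w k)) ha).symm
  have hps : ∀ k ∈ s.erase a, 0 < w k := fun k hk => hp k (mem_of_mem_erase hk)
  have h2 : 0 < ∑ k ∈ s.erase a, w k :=
    sum_pos hps ⟨b, mem_erase.2 ⟨hab.symm, hb⟩⟩
  have h1 := weak w (s.erase a) hps (by linarith [hp a ha])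
  have h3 := two (hp a ha) h2 (by linarith)
  rw [e2, e1]
  linarith

/-- a set `T` of at most four indices, the complement has ... -/
theorem core {ι : Type} [DecidableEq ι] [Fintype ι] (w : ι → ℝ) (α γ β : ℝ)
    (T : Finset ι) (a b : ι) (ha : a ∉ T) (hb : b ∉ T) (hab : a ≠ b)
    (hw : ∀ k, 0 < w k ∧ w k < π) (hs : ∑ k, w k = 2 * π) (h3 : π < α + γ + β)
    (e1 : ∑ k ∈ T, w k = α + γ + β)
    (e2 : ∑ k ∈ T, w k / (π - w k) = α / (π - α) + γ / (π - γ) + β / (π - β)) :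
    ∑ k, w k / (π - w k) < α / (π - α) + γ / (π - γ) + β / (π - β) +
      (2 * π - α - γ - β) / (π - (2 * π - α - γ - β)) := by
  have f1 := sum_add_sum_compl T w
  have f2 := sum_add_sum_compl T (fun k => w k / (π - w k))
  have f3 : ∑ k ∈ Tᶜ, w k = 2 * π - α - γ - β := by linarith
  have f4 := strict w Tᶜ a b (mem_compl.2 ha) (mem_compl.2 hb) hab (fun k _ => (hw k).1)
    (by linarith)
  rw [f3] at f4
  linarith

theorem sum3 {ι : Type} [DecidableEq ι] (f : ι → ℝ) (a b c : ι) (h1 : a ≠ b) (h2 : a ≠ c)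
    (h3 : b ≠ c) : ∑ k ∈ ({a, b, c} : Finset ι), f k = f a + f b + f c := by
  rw [sum_insert (by simp [h1, h2]), sum_insert (by simp [h3]), sum_singleton]
  ring

/-- existence of two indices outside a small set -/
theorem two_out {m : ℕ} (T : Finset (Fin (m + 3))) (hm : 2 ≤ m) (hT : T.card ≤ 3) :
    ∃ a b, a ∉ T ∧ b ∉ T ∧ a ≠ b := by
  have h1 : 1 < (Tᶜ).card := by
    rw [card_compl, Fintype.card_fin]; omega
  obtain ⟨a, ha, b, hb, hab⟩ := one_lt_card.1 h1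
  exact ⟨a, b, mem_compl.1 ha, mem_compl.1 hb, hab⟩

theorem fin_ne {m : ℕ} (hm : 2 ≤ m) (a : Fin (m + 3)) : a ≠ a + 1 ∧ a ≠ a + 1 + 1 ∧ a + 1 ≠ a + 1 + 1 := by
  have h1 : ((1 : Fin (m + 3)) : ℕ) = 1 := rfl
  refine ⟨?_, ?_, ?_⟩
  · intro h
    have h2 : (1 : Fin (m + 3)) = 0 := by
      have := congrArg (fun x => x - a) h
      simpa using this.symm
    exact absurd (congrArg Fin.val h2) (by simp)
  · intro h
    have h2 : (1 : Fin (m + 3)) + 1 = 0 := by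
      have := congrArg (fun x => x - a) h
      rw [sub_self, add_assoc, add_sub_cancel_left] at this
      exact this.symm
    have h3 := congrArg Fin.val h2
    rw [Fin.val_add, h1] at h3
    simp only [Fin.val_zero] at h3
    rw [Nat.mod_eq_of_lt (by omega)] at h3
    omega
  · intro h
    have h2 : (1 : Fin (m + 3)) = 0 := by
      have := congrArg (fun x => x - (a + 1)) h
      simpa using this.symm
    exact absurd (congrArg Fin.val h2) (by simp)

theorem consec {m : ℕ} (w : Fin (m + 3) → ℝ) (α γ β : ℝ) (a : Fin (m + 3)) (hm : 2 ≤ m)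
    (hw : ∀ k, 0 < w k ∧ w k < π) (hs : ∑ k, w k = 2 * π) (h3 : π < α + γ + β)
    (hαβ : α ≠ β)
    (h1 : (w a = α ∧ w (a + 1) = γ) ∨ (w a = γ ∧ w (a + 1) = α))
    (h2 : (w (a + 1) = γ ∧ w (a + 1 + 1) = β) ∨ (w (a + 1) = β ∧ w (a + 1 + 1) = γ)) :
    ∑ k, w k / (π - w k) < α / (π - α) + γ / (π - γ) + β / (π - β) +
      (2 * π - α - γ - β) / (π - (2 * π - α - γ - β)) := by
  obtain ⟨n1, n2, n3⟩ := fin_ne hm a
  obtain ⟨c, d, hc, hd, hcd⟩ := two_out ({a, a + 1, a + 1 + 1} : Finset (Fin (m + 3))) hm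
    (card_le_three)
  refine core w α γ β {a, a + 1, a + 1 + 1} c d hc hd hcd hw hs h3 ?_ ?_
  · rw [sum3 _ _ _ _ n1 n2 n3]
    rcases h1 with ⟨p1, p2⟩ | ⟨p1, p2⟩ <;> rcases h2 with ⟨p3, p4⟩ | ⟨p3, p4⟩
    · rw [p1, p2, p4]
    · rw [p1, p3, p4]; ring
    · rw [p1, p3, p4]; linarith
    · exact absurd (p2.symm.trans p3) hαβ
  · rw [sum3 (fun k => w k / (π - w k)) _ _ _ n1 n2 n3]
    rcases h1 with ⟨p1, p2⟩ | ⟨p1, p2⟩ <;> rcases h2 with ⟨p3, p4⟩ | ⟨p3, p4⟩
    · rw [p1, p2, p4]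
    · simp only [p1, p3, p4]; ring
    · have : α = γ := p2.symm.trans p3
      simp only [p1, p3, p4, this]
    · exact absurd (p2.symm.trans p3) hαβ

theorem t_FS : Pool.Agent.V5helper71.QB.S_FS := by
  intro m w α γ β i j hm hw hs hα hγ hβ h3 hαβ hij h1 h2
  by_cases hj : j = i + 1
  · subst hj
    exact consec w α γ β i hm hw hs h3 hαβ h1 h2
  by_cases hi : i = j + 1
  · subst hi
    have := consec w β γ α j hm hw hs (by linarith) hαβ.symm (by tauto) (by tauto)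
    have e : 2 * π - β - γ - α = 2 * π - α - γ - β := by ring
    rw [e] at this
    linarith
  -- four different indices
  obtain ⟨n1, n2, n3⟩ := fin_ne hm i
  obtain ⟨m1, m2, m3⟩ := fin_ne hm j
  have k1 : i + 1 ≠ j + 1 := fun h => hij (add_right_cancel h)
  -- `T` = the two indices of the first pair and the one with the value `β`
  obtain ⟨b, c, hb, hc, hbc⟩ : ∃ b c, w b = β ∧ w c = γ ∧ ((b = j ∧ c = j + 1) ∨ (b = j + 1 ∧ c = j)) := by
    rcases h2 with ⟨p, q⟩ | ⟨p, q⟩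
    · exact ⟨j + 1, j, q, p, Or.inr ⟨rfl, rfl⟩⟩
    · exact ⟨j, j + 1, p, q, Or.inl ⟨rfl, rfl⟩⟩
  have q1 : i ≠ b ∧ i ≠ c ∧ i + 1 ≠ b ∧ i + 1 ≠ c ∧ b ≠ c := by
    rcases hbc with ⟨rfl, rfl⟩ | ⟨rfl, rfl⟩
    · exact ⟨hij, hi, fun h => hj h.symm, k1, m1⟩
    · exact ⟨hi, hij, k1, fun h => hj h.symm, m1.symm⟩
  obtain ⟨q1, q2, q3, q4, q5⟩ := q1
  obtain ⟨d, hd⟩ : ∃ d, d ∉ ({i, i + 1, b, c} : Finset (Fin (m + 3))) := by
    have h1 : 0 < (({i, i + 1, b, c} : Finset (Fin (m + 3)))ᶜ).card := by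
      rw [card_compl, Fintype.card_fin]
      have := card_le_four (a := i) (b := i + 1) (c := b) (d := c)
      omega
    obtain ⟨d, hd⟩ := card_pos.1 h1
    exact ⟨d, mem_compl.1 hd⟩
  simp only [mem_insert, mem_singleton, not_or] at hd
  refine core w α γ β {i, i + 1, b} c d ?_ ?_ ?_ hw hs h3 ?_ ?_
  · simp [q2.symm, q4.symm, q5.symm]
  · simp [hd.1, hd.2.1, hd.2.2.1]
  · exact fun h => hd.2.2.2 h.symm
  · rw [sum3 _ _ _ _ n1 q1 q3, hb]
    rcases h1 with ⟨p1, p2⟩ | ⟨p1, p2⟩ <;> rw [p1, p2]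
    ring
  · rw [sum3 (fun k => w k / (π - w k)) _ _ _ n1 q1 q3]
    rcases h1 with ⟨p1, p2⟩ | ⟨p1, p2⟩ <;> simp only [p1, p2, hb]
    ring

end Pool.Agent.V5helper34.QB
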